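import Pool.Agent.H.MP_d2ef9c_co.Defs

namespace Pool.Agent.Results.MP_d2ef9c_co.ThreeSevenths

open Pool.Agent.H.MP_d2ef9c_co Finset Filter Topology

theorem indeque_of {V : Type} (G : SimpleGraph V) (S : Set V)
    (h : ∀ a ∈ S, ∀ b ∈ S, ∀ c ∈ S, G.Adj a b → G.Adj b c → a = c ∨ G.Adj a c) : Indeque G S := by
  rintro a b ⟨w⟩
  induction w with
  | nil => exact Or.inl rfl
  | @cons x y z hxy _ ih =>
    rcases ih with rfl | h'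
    · exact Or.inr hxy
    · rcases h x x.2 y y.2 z z.2 hxy h' with e | e
      · exact Or.inl (Subtype.ext e)
      · exact Or.inr e

abbrev VT (n : ℕ) := {p : Fin (n + 1) × Fin (n + 1) // p.1.val + p.2.val ≤ n}

def S (n c : ℕ) : Finset (VT n) := univ.filter fun a =>
  (a.1.1.val + 3 * a.1.2.val + c) % 7 = 0 ∨ (a.1.1.val + 3 * a.1.2.val + c) % 7 = 1 ∨
    (a.1.1.val + 3 * a.1.2.val + c) % 7 = 3

theorem dir {a1 a2 b1 b2 c : ℕ}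
    (ha : (a1 + 3 * a2 + c) % 7 = 0 ∨ (a1 + 3 * a2 + c) % 7 = 1 ∨ (a1 + 3 * a2 + c) % 7 = 3)
    (hb : (b1 + 3 * b2 + c) % 7 = 0 ∨ (b1 + 3 * b2 + c) % 7 = 1 ∨ (b1 + 3 * b2 + c) % 7 = 3)
    (h : ((a2 = b2 ∧ a1 = b1 + 1) ∨ (a1 = b1 ∧ a2 = b2 + 1) ∨ (a1 = b1 + 1 ∧ b2 = a2 + 1)) ∨
      ((b2 = a2 ∧ b1 = a1 + 1) ∨ (b1 = a1 ∧ b2 = a2 + 1) ∨ (b1 = a1 + 1 ∧ a2 = b2 + 1))) :
    ∃ r, r = (b1 + 3 * b2 + c) % 7 ∧
      ((r = 0 ∧ ((a1 = b1 + 1 ∧ a2 = b2) ∨ (a1 = b1 ∧ a2 = b2 + 1))) ∨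
      (r = 1 ∧ ((a1 + 1 = b1 ∧ a2 = b2) ∨ (a1 + 1 = b1 ∧ a2 = b2 + 1))) ∨
      (r = 3 ∧ ((a1 = b1 ∧ a2 + 1 = b2) ∨ (a1 = b1 + 1 ∧ a2 + 1 = b2)))) := by
  refine ⟨_, rfl, ?_⟩
  rcases h with ((⟨rfl, rfl⟩ | ⟨rfl, rfl⟩ | ⟨rfl, rfl⟩) | (⟨rfl, rfl⟩ | ⟨rfl, rfl⟩ | ⟨rfl, rfl⟩))
  · exact Or.inl ⟨by omega, by omega⟩
  · exact Or.inl ⟨by omega, by omega⟩
  · exact Or.inr (Or.inr ⟨by omega, by omega⟩)
  · exact Or.inr (Or.inl ⟨by omega, by omega⟩)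
  · exact Or.inr (Or.inr ⟨by omega, by omega⟩)
  · exact Or.inr (Or.inl ⟨by omega, by omega⟩)

theorem S_ind (n c : ℕ) : Indeque (T n) (S n c) := by
  refine indeque_of _ _ fun a ha b hb d hd h1 h2 => ?_
  simp only [S, coe_filter, mem_univ, true_and, Set.mem_setOf_eq] at ha hb hd
  by_cases e : a = d
  · exact Or.inl e
  right
  simp only [T, SimpleGraph.fromRel_adj] at h1 h2 ⊢
  refine ⟨e, ?_⟩
  have e' : ¬ (a.1.1.val = d.1.1.val ∧ a.1.2.val = d.1.2.val) := fun hh =>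
    e (Subtype.ext (Prod.ext (Fin.ext hh.1) (Fin.ext hh.2)))
  obtain ⟨r, hr, g1⟩ := dir ha hb h1.2
  obtain ⟨r', hr', g2⟩ := dir hd hb h2.2.symm
  rw [← hr] at hr'
  subst hr'
  clear h1 h2 ha hb hd hr
  omega

theorem bound (n : ℕ) : 3 * Fintype.card (VT n) ≤ 7 * indNum (T n) := by
  have h1 : ∀ c, (S n c).card ≤ indNum (T n) := fun c =>
    le_csSup ⟨Fintype.card (VT n), by rintro k ⟨s, -, rfl⟩; exact card_le_univ s⟩ ⟨_, S_ind n c, rfl⟩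
  have h2 : ∑ c ∈ range 7, (S n c).card = 3 * Fintype.card (VT n) := by
    simp only [S, card_filter]
    rw [sum_comm, mul_comm, ← smul_eq_mul, ← card_univ, ← sum_const]
    refine sum_congr rfl fun a _ => ?_
    generalize a.1.1.val + 3 * a.1.2.val = m
    simp only [sum_range_succ, range_zero, sum_empty]
    split_ifs <;> omega
  have h3 := sum_le_sum (s := range 7) fun c _ => h1 c
  rw [h2] at h3
  simpa using h3

theorem result :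
    (∀ n : ℕ, (3 / 7 : ℝ) ≤ (indNum (T n) : ℝ) /
      Fintype.card {p : Fin (n + 1) × Fin (n + 1) // p.1.val + p.2.val ≤ n}) ∧
    ¬ Tendsto (fun n : ℕ => (indNum (T n) : ℝ) /
      Fintype.card {p : Fin (n + 1) × Fin (n + 1) // p.1.val + p.2.val ≤ n}) atTop (𝓝 (2 / 5)) := by
  have h : ∀ n : ℕ, (3 / 7 : ℝ) ≤ (indNum (T n) : ℝ) / Fintype.card (VT n) := by
    intro n
    haveI : Nonempty (VT n) := ⟨⟨(0, 0), by simp⟩⟩
    have hp : (0 : ℝ) < Fintype.card (VT n) := by exact_mod_cast Fintype.card_pos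
    have : (3 : ℝ) * Fintype.card (VT n) ≤ 7 * indNum (T n) := by exact_mod_cast bound n
    rw [le_div_iff₀ hp]
    linarith
  refine ⟨h, fun ht => ?_⟩
  have := ge_of_tendsto' ht h
  norm_num at this

end Pool.Agent.Results.MP_d2ef9c_co.ThreeSevenths
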